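import Mathlib

/-! Anticoncentration of binomial distributions and an averaging lemma. -/

set_option autoImplicit false
open Finset

namespace Pool.Agent.V8H20.Irr

lemma centralBinom_sq (j : ℕ) : (2 * j + 1) * (Nat.centralBinom j) ^ 2 ≤ 16 ^ j := by
  induction j with
  | zero => simp
  | succ j ih =>
    have h1 := Nat.succ_mul_centralBinom_succ j
    -- (j+1)^2 * cb(j+1)^2 = 4 (2j+1)^2 cb(j)^2
    have h2 : (j + 1) ^ 2 * (Nat.centralBinom (j + 1)) ^ 2 = 4 * (2 * j + 1) ^ 2 * (Nat.centralBinom j) ^ 2 := by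
      calc (j + 1) ^ 2 * (Nat.centralBinom (j + 1)) ^ 2 = ((j + 1) * Nat.centralBinom (j + 1)) ^ 2 := by ring
        _ = (2 * (2 * j + 1) * Nat.centralBinom j) ^ 2 := by rw [h1]
        _ = _ := by ring
    have h3 : (j + 1) ^ 2 * ((2 * (j + 1) + 1) * (Nat.centralBinom (j + 1)) ^ 2) ≤ (j + 1) ^ 2 * 16 ^ (j + 1) := by
      calc (j + 1) ^ 2 * ((2 * (j + 1) + 1) * (Nat.centralBinom (j + 1)) ^ 2)
          = (2 * j + 3) * ((j + 1) ^ 2 * (Nat.centralBinom (j + 1)) ^ 2) := by ring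
        _ = (2 * j + 3) * (4 * (2 * j + 1) ^ 2 * (Nat.centralBinom j) ^ 2) := by rw [h2]
        _ = 4 * ((2 * j + 3) * (2 * j + 1)) * ((2 * j + 1) * (Nat.centralBinom j) ^ 2) := by ring
        _ ≤ 4 * (4 * (j + 1) ^ 2) * 16 ^ j := by
            apply Nat.mul_le_mul _ ih
            apply Nat.mul_le_mul_left
            nlinarith
        _ = (j + 1) ^ 2 * 16 ^ (j + 1) := by ring
    exact Nat.le_of_mul_le_mul_left h3 (by positivity)

lemma choose_sq (h t : ℕ) : (h + 1) * (h.choose t) ^ 2 ≤ 4 ^ h := by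
  rcases Nat.even_or_odd' h with ⟨j, rfl | rfl⟩
  · have h1 : (2 * j).choose t ≤ Nat.centralBinom j := Nat.choose_le_centralBinom t j
    calc (2 * j + 1) * ((2 * j).choose t) ^ 2 ≤ (2 * j + 1) * (Nat.centralBinom j) ^ 2 := by gcongr
      _ ≤ 16 ^ j := centralBinom_sq j
      _ = 4 ^ (2 * j) := by rw [pow_mul]; norm_num
  · have h1 : (2 * j + 1).choose t ≤ (2 * j + 1).choose j := by
      have := Nat.choose_le_middle t (2 * j + 1)
      have e : (2 * j + 1) / 2 = j := by omega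
      rwa [e] at this
    have h2 : 2 * (2 * j + 1).choose j = Nat.centralBinom (j + 1) := by
      rw [Nat.centralBinom_eq_two_mul_choose]
      have e : 2 * (j + 1) = (2 * j + 1) + 1 := by ring
      rw [e, Nat.choose_succ_succ' (2 * j + 1) j]
      have e2 : (2 * j + 1).choose (j + 1) = (2 * j + 1).choose j := by
        rw [← Nat.choose_symm_half]
      rw [e2]; ring
    have h3 := centralBinom_sq (j + 1)
    have h4 : 4 * ((2 * j + 1 + 1) * ((2 * j + 1).choose t) ^ 2) ≤ 4 * 4 ^ (2 * j + 1) := by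
      calc 4 * ((2 * j + 1 + 1) * ((2 * j + 1).choose t) ^ 2)
          ≤ 4 * ((2 * (j + 1) + 1) * ((2 * j + 1).choose j) ^ 2) := by gcongr; omega
        _ = (2 * (j + 1) + 1) * (2 * (2 * j + 1).choose j) ^ 2 := by ring
        _ = (2 * (j + 1) + 1) * (Nat.centralBinom (j + 1)) ^ 2 := by rw [h2]
        _ ≤ 16 ^ (j + 1) := h3
        _ = 4 * 4 ^ (2 * j + 1) := by
            rw [show (16 : ℕ) = 4 ^ 2 by norm_num, ← pow_mul, ← pow_succ']
            rfl
    exact Nat.le_of_mul_le_mul_left h4 (by norm_num)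

/-- the largest binomial probability -/
lemma choose_le (h t : ℕ) : ((h.choose t : ℕ) : ℝ) ≤ (1 / √((h : ℝ) + 1)) * 2 ^ h := by
  have h1 := choose_sq h t
  have h2 : ((h : ℝ) + 1) * ((h.choose t : ℕ) : ℝ) ^ 2 ≤ 4 ^ h := by exact_mod_cast h1
  have h3 : (0 : ℝ) < √((h : ℝ) + 1) := Real.sqrt_pos.mpr (by positivity)
  rw [one_div, inv_mul_eq_div, le_div_iff₀ h3]
  apply le_of_sq_le_sq _ (by positivity)
  rw [mul_pow, Real.sq_sqrt (by positivity), ← pow_mul, mul_comm h 2, pow_mul]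
  norm_num
  linarith

lemma averaging {α β : Type*} [DecidableEq α] (Q Bad : Finset α) (Γ : Finset β) (act : β → α → α)
    (hBad : Bad ⊆ Q) (hmap : ∀ γ ∈ Γ, ∀ H ∈ Q, act γ H ∈ Q)
    (hinv : ∀ γ ∈ Γ, ∀ H ∈ Q, act γ (act γ H) = H) (q : ℝ) (hΓ : Γ.Nonempty)
    (hq : ∀ H ∈ Q, ((Γ.filter (fun γ => act γ H ∈ Bad)).card : ℝ) ≤ q * Γ.card) :
    (Bad.card : ℝ) ≤ q * Q.card := by
  have h1 : ∀ γ ∈ Γ, (Q.filter (fun H => act γ H ∈ Bad)).card = Bad.card := by
    intro γ hγ
    apply Finset.card_bij' (fun H _ => act γ H) (fun H _ => act γ H)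
    · intro H hH
      exact (mem_filter.mp hH).2
    · intro H hH
      rw [mem_filter]
      refine ⟨hmap γ hγ H (hBad hH), ?_⟩
      rw [hinv γ hγ H (hBad hH)]
      exact hH
    · intro H hH
      exact hinv γ hγ H (mem_filter.mp hH).1
    · intro H hH
      exact hinv γ hγ H (hBad hH)
  have h2 : ∑ γ ∈ Γ, (Q.filter (fun H => act γ H ∈ Bad)).card =
      ∑ H ∈ Q, (Γ.filter (fun γ => act γ H ∈ Bad)).card := by
    simp_rw [card_filter]
    exact sum_comm
  rw [sum_congr rfl h1, sum_const, smul_eq_mul] at h2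
  have h3 : (Γ.card : ℝ) * Bad.card ≤ Γ.card * (q * Q.card) := by
    have : ((Γ.card * Bad.card : ℕ) : ℝ) = ∑ H ∈ Q, ((Γ.filter (fun γ => act γ H ∈ Bad)).card : ℝ) := by
      rw [h2]; push_cast; rfl
    rw [← Nat.cast_mul, this]
    calc ∑ H ∈ Q, ((Γ.filter (fun γ => act γ H ∈ Bad)).card : ℝ) ≤ ∑ _H ∈ Q, q * Γ.card :=
          sum_le_sum hq
      _ = Γ.card * (q * Q.card) := by rw [sum_const, nsmul_eq_mul]; ring
  have h4 : (0 : ℝ) < Γ.card := by exact_mod_cast card_pos.mpr hΓ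
  exact le_of_mul_le_mul_left h3 h4

/-- the number of subsets whose symmetric difference with a fixed set meets `D` in `t` elements -/
lemma card_inter {α : Type*} [DecidableEq α] (C D : Finset α) (hD : D ⊆ C) (t : ℕ) :
    (C.powerset.filter (fun T => (T ∩ D).card = t)).card = D.card.choose t * 2 ^ (C.card - D.card) := by
  rw [← card_sdiff_of_subset hD, ← card_powerset, ← card_powersetCard, ← card_product]
  apply Finset.card_bij' (fun T _ => (T ∩ D, T \ D)) (fun P _ => P.1 ∪ P.2)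
  · intro T hT
    rw [mem_filter, mem_powerset] at hT
    rw [mem_product, mem_powersetCard, mem_powerset]
    exact ⟨⟨inter_subset_right, hT.2⟩, sdiff_subset_sdiff hT.1 (Subset.refl _)⟩
  · intro P hP
    rw [mem_product, mem_powersetCard, mem_powerset] at hP
    rw [mem_filter, mem_powerset]
    refine ⟨union_subset (hP.1.1.trans hD) (hP.2.trans sdiff_subset), ?_⟩
    have : (P.1 ∪ P.2) ∩ D = P.1 := by
      ext x
      simp only [mem_inter, mem_union]
      constructor
      · rintro ⟨h | h, hx⟩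
        · exact h
        · exact absurd hx (mem_sdiff.mp (hP.2 h)).2
      · intro h
        exact ⟨Or.inl h, hP.1.1 h⟩
    rw [this]
    exact hP.1.2
  · intro T hT
    ext x
    simp only [mem_union, mem_inter, mem_sdiff]
    tauto
  · intro P hP
    rw [mem_product, mem_powersetCard, mem_powerset] at hP
    apply Prod.ext
    · ext x
      simp only [mem_inter, mem_union]
      constructor
      · rintro ⟨h | h, hx⟩
        · exact h
        · exact absurd hx (mem_sdiff.mp (hP.2 h)).2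
      · intro h
        exact ⟨Or.inl h, hP.1.1 h⟩
    · ext x
      simp only [mem_sdiff, mem_union]
      constructor
      · rintro ⟨h | h, hx⟩
        · exact absurd (hP.1.1 h) hx
        · exact h
      · intro h
        exact ⟨Or.inr h, (mem_sdiff.mp (hP.2 h)).2⟩

lemma card_symmDiff_inter {α : Type*} [DecidableEq α] (C D R : Finset α) (hD : D ⊆ C) (hR : R ⊆ D) (t : ℕ) :
    (C.powerset.filter (fun T => (symmDiff (T ∩ D) R).card = t)).card =
      D.card.choose t * 2 ^ (C.card - D.card) := by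
  rw [← card_inter C D hD t]
  have hRC := hR.trans hD
  have key : ∀ T : Finset α, symmDiff (T ∩ D) R = symmDiff T R ∩ D := by
    intro T
    ext x
    simp only [mem_symmDiff, mem_inter]
    constructor
    · rintro (⟨⟨h1, h2⟩, h3⟩ | ⟨h1, h2⟩)
      · exact ⟨Or.inl ⟨h1, h3⟩, h2⟩
      · have := hR h1
        exact ⟨Or.inr ⟨h1, fun h => h2 ⟨h, this⟩⟩, this⟩
    · rintro ⟨⟨h1, h2⟩ | ⟨h1, h2⟩, h3⟩
      · exact Or.inl ⟨⟨h1, h3⟩, h2⟩
      · exact Or.inr ⟨h1, fun h => h2 h.1⟩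
  have hsub : ∀ T ⊆ C, symmDiff T R ⊆ C := by
    intro T hT x hx
    rw [mem_symmDiff] at hx
    rcases hx with h | h
    · exact hT h.1
    · exact hRC h.1
  apply Finset.card_bij' (fun T _ => symmDiff T R) (fun T _ => symmDiff T R)
  · intro T hT
    rw [mem_filter, mem_powerset] at hT ⊢
    rw [key] at hT
    exact ⟨hsub T hT.1, hT.2⟩
  · intro T hT
    rw [mem_filter, mem_powerset] at hT ⊢
    rw [key, symmDiff_symmDiff_cancel_right]
    exact ⟨hsub T hT.1, hT.2⟩
  · intro T _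
    exact symmDiff_symmDiff_cancel_right _ _
  · intro T _
    exact symmDiff_symmDiff_cancel_right _ _

lemma sum_sq_choose (M : ℕ) :
    ∑ k ∈ range (M + 1), ((M : ℝ) - 2 * k) ^ 2 * (M.choose k : ℝ) = (M : ℝ) * 2 ^ M := by
  have h := congrArg (Polynomial.eval (1 / 2 : ℝ)) (bernsteinPolynomial.variance ℝ M)
  simp only [bernsteinPolynomial, Polynomial.eval_finsetSum, Polynomial.eval_mul, Polynomial.eval_pow,
    Polynomial.eval_sub, nsmul_eq_mul, Polynomial.eval_natCast, Polynomial.eval_X,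
    Polynomial.eval_one] at h
  have h2 : ∀ k ∈ range (M + 1), ((M : ℝ) - 2 * k) ^ 2 * (M.choose k : ℝ) =
      (4 * 2 ^ M) * (((M : ℝ) * (1 / 2) - k) ^ 2 * ((M.choose k : ℝ) * (1 / 2) ^ k * (1 - 1 / 2) ^ (M - k))) := by
    intro k hk
    rw [mem_range] at hk
    have e1 : (1 / 2 : ℝ) ^ k * (1 - 1 / 2) ^ (M - k) = 1 / 2 ^ M := by
      rw [show (1 - 1 / 2 : ℝ) = 1 / 2 by norm_num, ← pow_add, Nat.add_sub_cancel' (by omega)]
      rw [one_div, inv_pow, one_div]
    rw [mul_assoc (M.choose k : ℝ), e1]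
    have : (2 : ℝ) ^ M ≠ 0 := by positivity
    field_simp
    ring
  rw [sum_congr rfl h2, ← mul_sum, h]
  ring

lemma tail (M : ℕ) (hM : 0 < M) :
    ∑ k ∈ (range (M + 1)).filter (fun k => 4 * k < M), (M.choose k : ℝ) ≤ 4 / M * 2 ^ M := by
  have hMR : (0 : ℝ) < M := by exact_mod_cast hM
  have h1 : ∑ k ∈ (range (M + 1)).filter (fun k => 4 * k < M), (M : ℝ) ^ 2 / 4 * (M.choose k : ℝ) ≤
      ∑ k ∈ range (M + 1), ((M : ℝ) - 2 * k) ^ 2 * (M.choose k : ℝ) := by
    rw [sum_filter]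
    apply sum_le_sum
    intro k _
    split_ifs with hk
    · apply mul_le_mul_of_nonneg_right _ (by positivity)
      have hkR : 4 * (k : ℝ) < M := by exact_mod_cast hk
      have : (M : ℝ) / 2 ≤ M - 2 * k := by linarith
      nlinarith
    · positivity
  rw [sum_sq_choose, ← mul_sum] at h1
  have h2 : (M : ℝ) ^ 2 / 4 * ∑ k ∈ (range (M + 1)).filter (fun k => 4 * k < M), (M.choose k : ℝ) ≤
      (M : ℝ) ^ 2 / 4 * (4 / M * 2 ^ M) := by
    refine h1.trans (le_of_eq ?_)
    field_simp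
  exact le_of_mul_le_mul_left h2 (by positivity)

end Pool.Agent.V8H20.Irr
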