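import Mathlib
import Pool.Agent.V8H20.Irr1

/-! Hypergraphs: flipping private edges and swapping edges. -/

set_option autoImplicit false
open Finset

namespace Pool.Agent.V8H20.Irr

variable {n : ℕ}

/-- the degree of `v` in `H` -/
def deg (H : Finset (Finset (Fin n))) (v : Fin n) : ℕ := (H.filter (fun e => v ∈ e)).card

/-- all 5-uniform hypergraphs -/
def Om (n : ℕ) : Finset (Finset (Finset (Fin n))) := ((univ : Finset (Fin n)).powersetCard 5).powerset

lemma card_Om (n : ℕ) : (Om n).card = 2 ^ (n.choose 5) := by
  unfold Om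
  rw [card_powerset, card_powersetCard, card_univ, Fintype.card_fin]

lemma symmDiff_mem_Om {H T : Finset (Finset (Fin n))} (hH : H ∈ Om n) (hT : T ∈ Om n) :
    symmDiff H T ∈ Om n := by
  unfold Om at *
  rw [mem_powerset] at *
  intro e he
  rw [mem_symmDiff] at he
  rcases he with h | h
  · exact hH h.1
  · exact hT h.1

lemma card_symmDiff_add {α : Type*} [DecidableEq α] (X P : Finset α) :
    (symmDiff X P).card + 2 * (X ∩ P).card = X.card + P.card := by
  have h1 : (symmDiff X P).card = (X \ P).card + (P \ X).card := by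
    rw [symmDiff_def]
    exact card_union_of_disjoint (disjoint_sdiff_sdiff)
  have h2 := card_sdiff_add_card_inter X P
  have h3 := card_sdiff_add_card_inter P X
  rw [inter_comm P X] at h3
  omega

lemma deg_symmDiff (H T : Finset (Finset (Fin n))) (v : Fin n) :
    deg (symmDiff H T) v + 2 * ((H ∩ T).filter (fun e => v ∈ e)).card = deg H v + (T.filter (fun e => v ∈ e)).card := by
  unfold deg
  have h1 : (symmDiff H T).filter (fun e => v ∈ e) =
      symmDiff (H.filter (fun e => v ∈ e)) (T.filter (fun e => v ∈ e)) := by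
    ext e
    simp only [mem_filter, mem_symmDiff]
    tauto
  have h2 : (H ∩ T).filter (fun e => v ∈ e) = (H.filter (fun e => v ∈ e)) ∩ (T.filter (fun e => v ∈ e)) := by
    ext e
    simp only [mem_filter, mem_inter]
    tauto
  rw [h1, h2]
  exact card_symmDiff_add _ _

/-- private edges of `v` -/
def priv (B : Finset (Fin n)) (v : Fin n) : Finset (Finset (Fin n)) :=
  (B.powersetCard 4).image (insert v)

lemma insert_injOn {B : Finset (Fin n)} {v : Fin n} (hv : v ∉ B) :
    Set.InjOn (insert v : Finset (Fin n) → Finset (Fin n)) (B.powersetCard 4) := by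
  intro S hS T hT h
  rw [mem_coe, mem_powersetCard] at hS hT
  have h1 : v ∉ S := fun h => hv (hS.1 h)
  have h2 : v ∉ T := fun h => hv (hT.1 h)
  rw [← erase_insert h1, ← erase_insert h2, h]

lemma card_priv {B : Finset (Fin n)} {v : Fin n} (hv : v ∉ B) : (priv B v).card = B.card.choose 4 := by
  unfold priv
  rw [card_image_of_injOn (insert_injOn hv), card_powersetCard]

lemma priv_sub {B : Finset (Fin n)} {v : Fin n} (hv : v ∉ B) : priv B v ∈ Om n := by
  unfold priv Om
  rw [mem_powerset]
  intro e he
  rw [mem_image] at he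
  obtain ⟨S, hS, rfl⟩ := he
  rw [mem_powersetCard] at hS ⊢
  refine ⟨subset_univ _, ?_⟩
  rw [card_insert_of_notMem (fun h => hv (hS.1 h)), hS.2]

lemma mem_Om_of_subset {H T : Finset (Finset (Fin n))} (hH : H ∈ Om n) (hT : T ⊆ H) : T ∈ Om n := by
  unfold Om at *
  rw [mem_powerset] at *
  exact hT.trans hH

lemma not_mem_priv {B : Finset (Fin n)} {v w : Fin n} (hw : w ∉ B) (hwv : w ≠ v) {e : Finset (Fin n)}
    (he : e ∈ priv B v) : w ∉ e := by
  unfold priv at he
  rw [mem_image] at he
  obtain ⟨S, hS, rfl⟩ := he
  rw [mem_powersetCard] at hS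
  rw [mem_insert]
  rintro (h | h)
  · exact hwv h
  · exact hw (hS.1 h)

lemma mem_priv {B : Finset (Fin n)} {v : Fin n} {e : Finset (Fin n)}
    (he : e ∈ priv B v) : v ∈ e := by
  unfold priv at he
  rw [mem_image] at he
  obtain ⟨S, hS, rfl⟩ := he
  exact mem_insert_self _ _

lemma deg_flip_other {B : Finset (Fin n)} {v w : Fin n} (hw : w ∉ B) (hwv : w ≠ v)
    (H T : Finset (Finset (Fin n))) (hT : T ⊆ priv B v) : deg (symmDiff H T) w = deg H w := by
  have h := deg_symmDiff H T w
  have h1 : T.filter (fun e => w ∈ e) = ∅ := by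
    rw [filter_eq_empty_iff]
    intro e he
    exact not_mem_priv hw hwv (hT he)
  have h2 : (H ∩ T).filter (fun e => w ∈ e) = ∅ := by
    rw [filter_eq_empty_iff]
    intro e he
    exact not_mem_priv hw hwv (hT (mem_inter.mp he).2)
  rw [h1, h2] at h
  simpa using h

/-- Stage 1: for vertices outside `B`, the degree of `v` coincides with a quantity not depending on the
private edges of `v` with small probability. -/
lemma stage1 {B : Finset (Fin n)} {v w : Fin n} (hv : v ∉ B) (hw : w ∉ B) (hwv : w ≠ v)
    (Q : Finset (Finset (Finset (Fin n))))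
    (hQ : ∀ H ∈ Q, ∀ T ⊆ priv B v, symmDiff H T ∈ Q) :
    ((Q.filter (fun H => deg H v = deg H w)).card : ℝ) ≤
      1 / √(((B.card.choose 4 : ℕ) : ℝ) + 1) * Q.card := by
  apply averaging Q (Q.filter (fun H => deg H v = deg H w)) (priv B v).powerset (fun T H => symmDiff H T)
    (filter_subset _ _)
  · intro T hT H hH
    exact hQ H hH T (mem_powerset.mp hT)
  · intro T _ H _
    exact symmDiff_symmDiff_cancel_right _ _
  · exact ⟨∅, empty_mem_powerset _⟩
  · intro H hH
    have hsub : ((priv B v).powerset.filter (fun T => symmDiff H T ∈ Q.filter (fun H => deg H v = deg H w))) ⊆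
        ((priv B v).powerset.filter (fun T => (symmDiff (T ∩ priv B v) (H ∩ priv B v)).card =
          deg H w + (H ∩ priv B v).card - deg H v)) := by
      intro T hT
      rw [mem_filter, mem_powerset, mem_filter] at hT
      obtain ⟨hT1, _, hT2⟩ := hT
      rw [mem_filter, mem_powerset]
      refine ⟨hT1, ?_⟩
      rw [deg_flip_other hw hwv H T hT1] at hT2
      have h1 := deg_symmDiff H T v
      have h2 : T.filter (fun e => v ∈ e) = T := by
        rw [filter_eq_self]
        intro e he
        exact mem_priv (hT1 he)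
      have h3 : (H ∩ T).filter (fun e => v ∈ e) = H ∩ T := by
        rw [filter_eq_self]
        intro e he
        exact mem_priv (hT1 (mem_inter.mp he).2)
      rw [h2, h3] at h1
      have h4 := card_symmDiff_add (T ∩ priv B v) (H ∩ priv B v)
      have h5 : T ∩ priv B v = T := inter_eq_left.mpr hT1
      have h6 : T ∩ (H ∩ priv B v) = H ∩ T := by
        ext e
        simp only [mem_inter]
        constructor
        · rintro ⟨h1, h2, _⟩
          exact ⟨h2, h1⟩
        · rintro ⟨h1, h2⟩
          exact ⟨h2, h1, hT1 h2⟩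
      rw [h5, h6] at h4
      rw [h5]
      omega
    have h1 := card_le_card hsub
    rw [card_symmDiff_inter (priv B v) (priv B v) (H ∩ priv B v) (Subset.refl _) inter_subset_right,
      Nat.sub_self, pow_zero, mul_one, card_priv hv] at h1
    have h2 : (((priv B v).powerset.filter (fun T => symmDiff H T ∈ Q.filter (fun H => deg H v = deg H w))).card : ℝ) ≤
        (((B.card.choose 4).choose (deg H w + (H ∩ priv B v).card - deg H v) : ℕ) : ℝ) := by
      exact_mod_cast h1
    refine h2.trans ?_
    rw [card_powerset, card_priv hv]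
    push_cast
    exact choose_le _ _

end Pool.Agent.V8H20.Irr
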