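import Mathlib
import Pool.Agent.V8H20.Irr2

/-! Hypergraphs: swapping edges. -/

set_option autoImplicit false
open Finset

namespace Pool.Agent.V8H20.Irr

variable {n : ℕ}

/-- the 4-subsets `S` of `A` for which exactly one of `S + u`, `S + v` is an edge -/
def disc (A : Finset (Fin n)) (u v : Fin n) (H : Finset (Finset (Fin n))) : Finset (Finset (Fin n)) :=
  (A.powersetCard 4).filter (fun S => ¬ (insert u S ∈ H ↔ insert v S ∈ H))

def wset (u v : Fin n) (R : Finset (Finset (Fin n))) : Finset (Finset (Fin n)) :=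
  R.image (insert u) ∪ R.image (insert v)

def swp (A : Finset (Fin n)) (u v : Fin n) (T H : Finset (Finset (Fin n))) : Finset (Finset (Fin n)) :=
  symmDiff H (wset u v (T ∩ disc A u v H))

lemma disc_sub (A : Finset (Fin n)) (u v : Fin n) (H : Finset (Finset (Fin n))) :
    disc A u v H ⊆ A.powersetCard 4 := filter_subset _ _

lemma insert_mem_image {A : Finset (Fin n)} {u : Fin n} (hu : u ∉ A) {R : Finset (Finset (Fin n))}
    (hR : R ⊆ A.powersetCard 4) {S : Finset (Fin n)} (hS : S ∈ A.powersetCard 4) :
    insert u S ∈ R.image (insert u) ↔ S ∈ R := by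
  rw [mem_image]
  constructor
  · rintro ⟨S', hS', h⟩
    have := insert_injOn hu (mem_coe.mpr (hR hS')) (mem_coe.mpr hS) h
    rwa [← this]
  · intro h
    exact ⟨S, h, rfl⟩

lemma not_insert_mem_image {A : Finset (Fin n)} {u v : Fin n} (hu : u ∉ A) (huv : u ≠ v)
    {R : Finset (Finset (Fin n))} (hR : R ⊆ A.powersetCard 4) (S : Finset (Fin n)) :
    insert u S ∉ R.image (insert v) := by
  rw [mem_image]
  rintro ⟨S', hS', h⟩
  have h1 : u ∈ insert v S' := by rw [h]; exact mem_insert_self _ _
  rw [mem_insert] at h1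
  rcases h1 with h1 | h1
  · exact huv h1
  · exact hu ((mem_powersetCard.mp (hR hS')).1 h1)

lemma mem_wset_left {A : Finset (Fin n)} {u v : Fin n} (hu : u ∉ A) (huv : u ≠ v)
    {R : Finset (Finset (Fin n))} (hR : R ⊆ A.powersetCard 4) {S : Finset (Fin n)}
    (hS : S ∈ A.powersetCard 4) : insert u S ∈ wset u v R ↔ S ∈ R := by
  unfold wset
  rw [mem_union, insert_mem_image hu hR hS]
  have := not_insert_mem_image hu huv hR S
  tauto

lemma mem_wset_right {A : Finset (Fin n)} {u v : Fin n} (hv : v ∉ A) (huv : u ≠ v)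
    {R : Finset (Finset (Fin n))} (hR : R ⊆ A.powersetCard 4) {S : Finset (Fin n)}
    (hS : S ∈ A.powersetCard 4) : insert v S ∈ wset u v R ↔ S ∈ R := by
  unfold wset
  rw [mem_union, insert_mem_image hv hR hS]
  have := not_insert_mem_image hv huv.symm hR S
  tauto

lemma disc_swp {A : Finset (Fin n)} {u v : Fin n} (hu : u ∉ A) (hv : v ∉ A) (huv : u ≠ v)
    (T H : Finset (Finset (Fin n))) : disc A u v (swp A u v T H) = disc A u v H := by
  have hR : T ∩ disc A u v H ⊆ A.powersetCard 4 := inter_subset_right.trans (disc_sub _ _ _ _)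
  unfold swp
  set R := T ∩ disc A u v H
  unfold disc
  apply filter_congr
  intro S hS
  rw [mem_symmDiff, mem_symmDiff, mem_wset_left hu huv hR hS, mem_wset_right hv huv hR hS]
  tauto

lemma swp_swp {A : Finset (Fin n)} {u v : Fin n} (hu : u ∉ A) (hv : v ∉ A) (huv : u ≠ v)
    (T H : Finset (Finset (Fin n))) : swp A u v T (swp A u v T H) = H := by
  have h := disc_swp hu hv huv T H
  unfold swp at h ⊢
  rw [h, symmDiff_symmDiff_cancel_right]

lemma wset_mem_Om {A : Finset (Fin n)} {u v : Fin n} (hu : u ∉ A) (hv : v ∉ A)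
    {R : Finset (Finset (Fin n))} (hR : R ⊆ A.powersetCard 4) : wset u v R ∈ Om n := by
  unfold Om wset
  rw [mem_powerset]
  apply union_subset
  · intro e he
    have h1 := priv_sub hu (B := A)
    unfold priv Om at h1
    rw [mem_powerset] at h1
    exact h1 (image_subset_image hR he)
  · intro e he
    have h1 := priv_sub hv (B := A)
    unfold priv Om at h1
    rw [mem_powerset] at h1
    exact h1 (image_subset_image hR he)

lemma swp_mem_Om {A : Finset (Fin n)} {u v : Fin n} (hu : u ∉ A) (hv : v ∉ A)
    {T H : Finset (Finset (Fin n))} (hH : H ∈ Om n) : swp A u v T H ∈ Om n :=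
  symmDiff_mem_Om hH (wset_mem_Om hu hv (inter_subset_right.trans (disc_sub _ _ _ _)))

lemma image_disjoint {A : Finset (Fin n)} {u v : Fin n} (hu : u ∉ A) (huv : u ≠ v)
    {R R' : Finset (Finset (Fin n))} (hR' : R' ⊆ A.powersetCard 4) :
    Disjoint (R.image (insert u)) (R'.image (insert v)) := by
  rw [disjoint_left]
  intro e he he'
  rw [mem_image] at he
  obtain ⟨S, hS, rfl⟩ := he
  exact not_insert_mem_image hu huv hR' S he'

lemma card_image_ins {A : Finset (Fin n)} {u : Fin n} (hu : u ∉ A)
    {R : Finset (Finset (Fin n))} (hR : R ⊆ A.powersetCard 4) : (R.image (insert u)).card = R.card :=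
  card_image_of_injOn (fun _ hS _ hS' h => insert_injOn hu (mem_coe.mpr (hR hS)) (mem_coe.mpr (hR hS')) h)

/-- the degrees of the other vertices do not change -/
lemma deg_swp_other {A : Finset (Fin n)} {u v w : Fin n} (hu : u ∉ A) (hv : v ∉ A) (huv : u ≠ v)
    (hwu : w ≠ u) (hwv : w ≠ v) (T H : Finset (Finset (Fin n))) :
    deg (swp A u v T H) w = deg H w := by
  have hR : T ∩ disc A u v H ⊆ A.powersetCard 4 := inter_subset_right.trans (disc_sub _ _ _ _)
  have hRD : T ∩ disc A u v H ⊆ disc A u v H := inter_subset_right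
  unfold swp
  set R := T ∩ disc A u v H
  have h := deg_symmDiff H (wset u v R) w
  -- the edges of `wset` containing `w`
  set R' := R.filter (fun S => w ∈ S) with hR'def
  have hR' : R' ⊆ A.powersetCard 4 := (filter_subset _ _).trans hR
  have e1 : (wset u v R).filter (fun e => w ∈ e) = R'.image (insert u) ∪ R'.image (insert v) := by
    unfold wset
    ext e
    rw [mem_filter, mem_union, mem_union, mem_image, mem_image, mem_image, mem_image]
    constructor
    · rintro ⟨⟨S, hS, rfl⟩ | ⟨S, hS, rfl⟩, hw⟩
      · left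
        rw [mem_insert] at hw
        exact ⟨S, mem_filter.mpr ⟨hS, by tauto⟩, rfl⟩
      · right
        rw [mem_insert] at hw
        exact ⟨S, mem_filter.mpr ⟨hS, by tauto⟩, rfl⟩
    · rintro (⟨S, hS, rfl⟩ | ⟨S, hS, rfl⟩)
      · rw [mem_filter] at hS
        exact ⟨Or.inl ⟨S, hS.1, rfl⟩, mem_insert_of_mem hS.2⟩
      · rw [mem_filter] at hS
        exact ⟨Or.inr ⟨S, hS.1, rfl⟩, mem_insert_of_mem hS.2⟩
  have e2 : (H ∩ wset u v R).filter (fun e => w ∈ e) =
      (R'.filter (fun S => insert u S ∈ H)).image (insert u) ∪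
        (R'.filter (fun S => insert v S ∈ H)).image (insert v) := by
    have : (H ∩ wset u v R).filter (fun e => w ∈ e) = H ∩ (wset u v R).filter (fun e => w ∈ e) := by
      ext e; simp only [mem_filter, mem_inter]; tauto
    rw [this, e1]
    ext e
    rw [mem_inter, mem_union, mem_union, mem_image, mem_image, mem_image, mem_image]
    constructor
    · rintro ⟨he, ⟨S, hS, rfl⟩ | ⟨S, hS, rfl⟩⟩
      · left
        exact ⟨S, mem_filter.mpr ⟨hS, he⟩, rfl⟩
      · right
        exact ⟨S, mem_filter.mpr ⟨hS, he⟩, rfl⟩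
    · rintro (⟨S, hS, rfl⟩ | ⟨S, hS, rfl⟩)
      · rw [mem_filter] at hS
        exact ⟨hS.2, Or.inl ⟨S, hS.1, rfl⟩⟩
      · rw [mem_filter] at hS
        exact ⟨hS.2, Or.inr ⟨S, hS.1, rfl⟩⟩
  have c1 : ((wset u v R).filter (fun e => w ∈ e)).card = 2 * R'.card := by
    rw [e1, card_union_of_disjoint (image_disjoint hu huv hR'), card_image_ins hu hR',
      card_image_ins hv hR']
    ring
  have c2 : ((H ∩ wset u v R).filter (fun e => w ∈ e)).card = R'.card := by
    rw [e2, card_union_of_disjoint (image_disjoint hu huv ((filter_subset _ _).trans hR')),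
      card_image_ins hu ((filter_subset _ _).trans hR'), card_image_ins hv ((filter_subset _ _).trans hR')]
    have : R'.filter (fun S => insert v S ∈ H) = R'.filter (fun S => ¬ insert u S ∈ H) := by
      apply filter_congr
      intro S hS
      have h1 : S ∈ disc A u v H := hRD (mem_filter.mp hS).1
      unfold disc at h1
      have h2 := (mem_filter.mp h1).2
      tauto
    rw [this]
    exact card_filter_add_card_filter_not _
  rw [c1, c2] at h
  omega

/-- the degree of `u` changes -/
lemma deg_swp_self {A : Finset (Fin n)} {u v : Fin n} (hu : u ∉ A) (huv : u ≠ v)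
    (T H : Finset (Finset (Fin n))) :
    deg (swp A u v T H) u + ((disc A u v H).filter (fun S => insert u S ∈ H)).card = deg H u +
      (symmDiff (T ∩ disc A u v H) ((disc A u v H).filter (fun S => insert u S ∈ H))).card := by
  have hR : T ∩ disc A u v H ⊆ A.powersetCard 4 := inter_subset_right.trans (disc_sub _ _ _ _)
  have hRD : T ∩ disc A u v H ⊆ disc A u v H := inter_subset_right
  unfold swp
  set R := T ∩ disc A u v H
  set D1 := (disc A u v H).filter (fun S => insert u S ∈ H) with hD1
  have h := deg_symmDiff H (wset u v R) u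
  have e1 : (wset u v R).filter (fun e => u ∈ e) = R.image (insert u) := by
    unfold wset
    ext e
    rw [mem_filter, mem_union, mem_image, mem_image]
    constructor
    · rintro ⟨⟨S, hS, rfl⟩ | ⟨S, hS, rfl⟩, hw⟩
      · exact ⟨S, hS, rfl⟩
      · exfalso
        rw [mem_insert] at hw
        rcases hw with hw | hw
        · exact huv hw
        · exact hu ((mem_powersetCard.mp (hR hS)).1 hw)
    · rintro ⟨S, hS, rfl⟩
      exact ⟨Or.inl ⟨S, hS, rfl⟩, mem_insert_self _ _⟩
  have e2 : (H ∩ wset u v R).filter (fun e => u ∈ e) = (R ∩ D1).image (insert u) := by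
    have : (H ∩ wset u v R).filter (fun e => u ∈ e) = H ∩ (wset u v R).filter (fun e => u ∈ e) := by
      ext e; simp only [mem_filter, mem_inter]; tauto
    rw [this, e1]
    ext e
    rw [mem_inter, mem_image, mem_image]
    constructor
    · rintro ⟨he, S, hS, rfl⟩
      exact ⟨S, mem_inter.mpr ⟨hS, mem_filter.mpr ⟨hRD hS, he⟩⟩, rfl⟩
    · rintro ⟨S, hS, rfl⟩
      rw [mem_inter, hD1, mem_filter] at hS
      exact ⟨hS.2.2, S, hS.1, rfl⟩
  rw [e1, e2, card_image_ins hu hR, card_image_ins hu (inter_subset_left.trans hR)] at h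
  have h2 := card_symmDiff_add R D1
  omega

/-- Stage 2: coincidences of the degree of `u ∉ A`. -/
lemma stage2 {A : Finset (Fin n)} {u v w : Fin n} (hu : u ∉ A) (hv : v ∉ A) (huv : u ≠ v)
    (hwu : w ≠ u) (hwv : w ≠ v) (Q : Finset (Finset (Finset (Fin n)))) (thr : ℝ) (hthr : 0 < thr)
    (hQ : ∀ H ∈ Q, ∀ T, swp A u v T H ∈ Q) (hQ2 : ∀ H ∈ Q, thr ≤ (disc A u v H).card) :
    ((Q.filter (fun H => deg H u = deg H w)).card : ℝ) ≤ 1 / √thr * Q.card := by
  apply averaging Q (Q.filter (fun H => deg H u = deg H w)) (A.powersetCard 4).powerset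
    (fun T H => swp A u v T H) (filter_subset _ _)
  · intro T _ H hH
    exact hQ H hH T
  · intro T _ H _
    exact swp_swp hu hv huv T H
  · exact ⟨∅, empty_mem_powerset _⟩
  · intro H hH
    set D := disc A u v H with hD
    set D1 := D.filter (fun S => insert u S ∈ H) with hD1
    have hDC : D ⊆ A.powersetCard 4 := disc_sub _ _ _ _
    have hsub : ((A.powersetCard 4).powerset.filter
          (fun T => swp A u v T H ∈ Q.filter (fun H => deg H u = deg H w))) ⊆
        ((A.powersetCard 4).powerset.filter (fun T => (symmDiff (T ∩ D) D1).card =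
          deg H w + D1.card - deg H u)) := by
      intro T hT
      rw [mem_filter, mem_powerset, mem_filter] at hT
      obtain ⟨hT1, _, hT2⟩ := hT
      rw [mem_filter, mem_powerset]
      refine ⟨hT1, ?_⟩
      rw [deg_swp_other hu hv huv hwu hwv] at hT2
      have h1 := deg_swp_self (v := v) hu huv T H
      rw [← hD, ← hD1] at h1
      omega
    have h1 := card_le_card hsub
    rw [card_symmDiff_inter (A.powersetCard 4) D D1 hDC (filter_subset _ _)] at h1
    have h2 : (((A.powersetCard 4).powerset.filter
          (fun T => swp A u v T H ∈ Q.filter (fun H => deg H u = deg H w))).card : ℝ) ≤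
        ((D.card.choose (deg H w + D1.card - deg H u) : ℕ) : ℝ) * 2 ^ ((A.powersetCard 4).card - D.card) := by
      exact_mod_cast h1
    refine h2.trans ?_
    rw [card_powerset]
    push_cast
    have h3 := choose_le D.card (deg H w + D1.card - deg H u)
    have h4 : (2 : ℝ) ^ (A.powersetCard 4).card = 2 ^ D.card * 2 ^ ((A.powersetCard 4).card - D.card) := by
      rw [← pow_add, Nat.add_sub_cancel' (card_le_card hDC)]
    rw [h4]
    have h5 : 1 / √((D.card : ℝ) + 1) ≤ 1 / √thr := by
      apply one_div_le_one_div_of_le (Real.sqrt_pos.mpr hthr)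
      apply Real.sqrt_le_sqrt
      have := hQ2 H hH
      linarith
    calc ((D.card.choose (deg H w + D1.card - deg H u) : ℕ) : ℝ) * 2 ^ ((A.powersetCard 4).card - D.card)
        ≤ (1 / √((D.card : ℝ) + 1) * 2 ^ D.card) * 2 ^ ((A.powersetCard 4).card - D.card) := by gcongr
      _ ≤ (1 / √thr * 2 ^ D.card) * 2 ^ ((A.powersetCard 4).card - D.card) := by gcongr
      _ = _ := by ring

/-- `disc` is rarely small -/
lemma disc_small {A : Finset (Fin n)} {u v : Fin n} (hu : u ∉ A) (hv : v ∉ A) (huv : u ≠ v)
    (hA : 0 < A.card.choose 4) :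
    (((Om n).filter (fun H => 4 * (disc A u v H).card < A.card.choose 4)).card : ℝ) ≤
      4 / ((A.card.choose 4 : ℕ) : ℝ) * (Om n).card := by
  set C := A.powersetCard 4 with hC
  have hCc : C.card = A.card.choose 4 := card_powersetCard _ _
  have hdisc : ∀ T ⊆ C, ∀ H, disc A u v (symmDiff H (T.image (insert u))) = symmDiff T (disc A u v H) := by
    intro T hT H
    ext S
    unfold disc
    simp only [mem_filter, mem_symmDiff]
    by_cases hS : S ∈ A.powersetCard 4
    · rw [insert_mem_image hu hT hS]
      have := not_insert_mem_image hv huv.symm hT S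
      tauto
    · have : S ∉ T := fun h => hS (hT h)
      tauto
  apply averaging (Om n) ((Om n).filter (fun H => 4 * (disc A u v H).card < A.card.choose 4)) C.powerset
    (fun T H => symmDiff H (T.image (insert u))) (filter_subset _ _)
  · intro T hT H hH
    apply symmDiff_mem_Om hH
    apply mem_Om_of_subset (priv_sub hu (B := A))
    exact image_subset_image (mem_powerset.mp hT)
  · intro T _ H _
    exact symmDiff_symmDiff_cancel_right _ _
  · exact ⟨∅, empty_mem_powerset _⟩
  · intro H hH
    have hsub : (C.powerset.filter (fun T => symmDiff H (T.image (insert u)) ∈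
          (Om n).filter (fun H => 4 * (disc A u v H).card < A.card.choose 4))) ⊆
        ((range (C.card + 1)).filter (fun k => 4 * k < C.card)).biUnion
          (fun k => C.powerset.filter (fun T => (symmDiff (T ∩ C) (disc A u v H)).card = k)) := by
      intro T hT
      rw [mem_filter, mem_powerset, mem_filter] at hT
      obtain ⟨hT1, _, hT2⟩ := hT
      rw [hdisc T hT1] at hT2
      rw [mem_biUnion]
      refine ⟨(symmDiff T (disc A u v H)).card, ?_, ?_⟩
      · rw [mem_filter, mem_range, hCc]
        refine ⟨?_, hT2⟩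
        have : 0 ≤ (symmDiff T (disc A u v H)).card := Nat.zero_le _
        omega
      · rw [mem_filter, mem_powerset, inter_eq_left.mpr hT1]
        exact ⟨hT1, rfl⟩
    have h1 := (card_le_card hsub).trans card_biUnion_le
    have h2 : ∀ k ∈ (range (C.card + 1)).filter (fun k => 4 * k < C.card),
        (C.powerset.filter (fun T => (symmDiff (T ∩ C) (disc A u v H)).card = k)).card = C.card.choose k := by
      intro k _
      rw [card_symmDiff_inter C C (disc A u v H) (Subset.refl _) (disc_sub _ _ _ _), Nat.sub_self, pow_zero,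
        mul_one]
    rw [sum_congr rfl h2] at h1
    have h3 := tail C.card (by rw [hCc]; exact hA)
    have h4 : ((C.powerset.filter (fun T => symmDiff H (T.image (insert u)) ∈
          (Om n).filter (fun H => 4 * (disc A u v H).card < A.card.choose 4))).card : ℝ) ≤
        ∑ k ∈ (range (C.card + 1)).filter (fun k => 4 * k < C.card), ((C.card.choose k : ℕ) : ℝ) := by
      exact_mod_cast h1
    refine h4.trans (h3.trans ?_)
    rw [card_powerset, hCc]
    push_cast
    exact le_rfl

end Pool.Agent.V8H20.Irr
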