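import Mathlib
import Pool.Agent.V8H20.Irr3

/-! Random 5-uniform hypergraphs are irregular with positive probability. -/

set_option autoImplicit false
open Finset

namespace Pool.Agent.V8H20.Irr

variable {n : ℕ}

/-- the hypergraphs in which the vertices of `A'` have distinct degrees -/
def PP (A' : Finset (Fin n)) : Finset (Finset (Finset (Fin n))) :=
  (Om n).filter (fun H => ∀ x ∈ A', ∀ y ∈ A', deg H x = deg H y → x = y)

lemma PP_step {B A' : Finset (Fin n)} (hA' : ∀ x ∈ A', x ∉ B) {v : Fin n} (hv : v ∉ B) (hvA : v ∉ A') :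
    (1 - (A'.card : ℝ) * (1 / √(((B.card.choose 4 : ℕ) : ℝ) + 1))) * ((PP A').card : ℝ) ≤
      ((PP (insert v A')).card : ℝ) := by
  set q : ℝ := 1 / √(((B.card.choose 4 : ℕ) : ℝ) + 1) with hq
  have hsub : PP A' ⊆ PP (insert v A') ∪ A'.biUnion (fun w => (PP A').filter (fun H => deg H v = deg H w)) := by
    intro H hH
    rw [mem_union]
    by_cases hbad : ∃ w ∈ A', deg H v = deg H w
    · right
      obtain ⟨w, hw, hvw⟩ := hbad
      rw [mem_biUnion]
      exact ⟨w, hw, mem_filter.mpr ⟨hH, hvw⟩⟩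
    · left
      push Not at hbad
      unfold PP at hH ⊢
      rw [mem_filter] at hH ⊢
      refine ⟨hH.1, ?_⟩
      intro x hx y hy hxy
      rw [mem_insert] at hx hy
      rcases hx with rfl | hx
      · rcases hy with rfl | hy
        · rfl
        · exact absurd hxy (hbad y hy)
      · rcases hy with rfl | hy
        · exact absurd hxy.symm (hbad x hx)
        · exact hH.2 x hx y hy hxy
  have h1 : (PP A').card ≤ (PP (insert v A')).card +
      ∑ w ∈ A', ((PP A').filter (fun H => deg H v = deg H w)).card :=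
    (card_le_card hsub).trans ((card_union_le _ _).trans (Nat.add_le_add_left card_biUnion_le _))
  have h2 : ∀ w ∈ A', (((PP A').filter (fun H => deg H v = deg H w)).card : ℝ) ≤ q * (PP A').card := by
    intro w hw
    apply stage1 hv (hA' w hw) (fun h => hvA (h ▸ hw))
    intro H hH T hT
    unfold PP at hH ⊢
    rw [mem_filter] at hH ⊢
    refine ⟨symmDiff_mem_Om hH.1 (mem_Om_of_subset (priv_sub hv) hT), ?_⟩
    intro x hx y hy hxy
    have hxv : x ≠ v := fun h => hvA (h ▸ hx)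
    have hyv : y ≠ v := fun h => hvA (h ▸ hy)
    rw [deg_flip_other (hA' x hx) hxv H T hT, deg_flip_other (hA' y hy) hyv H T hT] at hxy
    exact hH.2 x hx y hy hxy
  have h3 : ((PP A').card : ℝ) ≤ (PP (insert v A')).card +
      ∑ w ∈ A', (((PP A').filter (fun H => deg H v = deg H w)).card : ℝ) := by exact_mod_cast h1
  have h4 : ∑ w ∈ A', (((PP A').filter (fun H => deg H v = deg H w)).card : ℝ) ≤
      A'.card * (q * (PP A').card) := by
    refine (sum_le_sum h2).trans ?_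
    rw [sum_const, nsmul_eq_mul]
  nlinarith

lemma PP_lower {B : Finset (Fin n)} (hq : (n : ℝ) * (1 / √(((B.card.choose 4 : ℕ) : ℝ) + 1)) ≤ 1)
    (A' : Finset (Fin n)) (hA' : ∀ x ∈ A', x ∉ B) :
    (1 - (n : ℝ) * (1 / √(((B.card.choose 4 : ℕ) : ℝ) + 1))) ^ A'.card * ((Om n).card : ℝ) ≤
      ((PP A').card : ℝ) := by
  set q : ℝ := 1 / √(((B.card.choose 4 : ℕ) : ℝ) + 1) with hqdef
  have hq0 : 0 ≤ q := by positivity
  induction A' using Finset.induction_on with
  | empty =>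
    have : PP (∅ : Finset (Fin n)) = Om n := by
      unfold PP
      rw [filter_eq_self]
      intro H _ x hx
      simp at hx
    rw [this]
    simp
  | insert v A' hvA ih =>
    have ih' := ih (fun x hx => hA' x (mem_insert_of_mem hx))
    have h1 := PP_step (fun x hx => hA' x (mem_insert_of_mem hx)) (hA' v (mem_insert_self _ _)) hvA
    rw [← hqdef] at h1
    rw [card_insert_of_notMem hvA, pow_succ]
    have h2 : (A'.card : ℝ) ≤ n := by
      have := card_le_univ A'
      rw [Fintype.card_fin] at this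
      exact_mod_cast this
    have h3 : 1 - (n : ℝ) * q ≤ 1 - (A'.card : ℝ) * q := by nlinarith
    have h4 : 0 ≤ 1 - (n : ℝ) * q := by linarith
    calc (1 - (n : ℝ) * q) ^ A'.card * (1 - (n : ℝ) * q) * ((Om n).card : ℝ)
        = (1 - (n : ℝ) * q) * ((1 - (n : ℝ) * q) ^ A'.card * ((Om n).card : ℝ)) := by ring
      _ ≤ (1 - (n : ℝ) * q) * (PP A').card := by gcongr
      _ ≤ (1 - (A'.card : ℝ) * q) * (PP A').card := by gcongr
      _ ≤ _ := h1

/-- one bad pair -/
lemma bad_pair {A : Finset (Fin n)} {u w : Fin n} (hu : u ∉ A) (hwu : w ≠ u)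
    (hv : ∃ v, v ∉ A ∧ v ≠ u ∧ v ≠ w) (hA : 0 < A.card.choose 4) :
    (((PP A).filter (fun H => deg H u = deg H w)).card : ℝ) ≤
      2 / √(((A.card.choose 4 : ℕ) : ℝ)) * (PP A).card + 4 / ((A.card.choose 4 : ℕ) : ℝ) * (Om n).card := by
  obtain ⟨v, hvA, hvu, hvw⟩ := hv
  set M : ℝ := ((A.card.choose 4 : ℕ) : ℝ) with hM
  have hM0 : 0 < M := by rw [hM]; exact_mod_cast hA
  set Q := (PP A).filter (fun H => A.card.choose 4 ≤ 4 * (disc A u v H).card) with hQ
  have hsub : (PP A).filter (fun H => deg H u = deg H w) ⊆ Q.filter (fun H => deg H u = deg H w) ∪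
      (Om n).filter (fun H => 4 * (disc A u v H).card < A.card.choose 4) := by
    intro H hH
    rw [mem_filter] at hH
    rw [mem_union]
    by_cases h : A.card.choose 4 ≤ 4 * (disc A u v H).card
    · left
      exact mem_filter.mpr ⟨mem_filter.mpr ⟨hH.1, h⟩, hH.2⟩
    · right
      exact mem_filter.mpr ⟨(mem_filter.mp hH.1).1, by omega⟩
  have h1 := (card_le_card hsub).trans (card_union_le _ _)
  have h2 : ((Q.filter (fun H => deg H u = deg H w)).card : ℝ) ≤ 1 / √(M / 4) * Q.card := by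
    apply stage2 hu hvA hvu.symm hwu hvw.symm Q (M / 4) (by positivity)
    · intro H hH T
      rw [hQ, mem_filter] at hH ⊢
      rw [disc_swp hu hvA hvu.symm]
      refine ⟨?_, hH.2⟩
      unfold PP at hH ⊢
      rw [mem_filter] at hH ⊢
      refine ⟨swp_mem_Om hu hvA hH.1.1, ?_⟩
      intro x hx y hy hxy
      have hx1 : x ≠ u := fun h => hu (h ▸ hx)
      have hx2 : x ≠ v := fun h => hvA (h ▸ hx)
      have hy1 : y ≠ u := fun h => hu (h ▸ hy)
      have hy2 : y ≠ v := fun h => hvA (h ▸ hy)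
      rw [deg_swp_other hu hvA hvu.symm hx1 hx2, deg_swp_other hu hvA hvu.symm hy1 hy2] at hxy
      exact hH.1.2 x hx y hy hxy
    · intro H hH
      have h3 := (mem_filter.mp hH).2
      have h4 : M ≤ 4 * ((disc A u v H).card : ℝ) := by rw [hM]; exact_mod_cast h3
      linarith
  have h3 := disc_small hu hvA hvu.symm hA
  have h4 : (Q.card : ℝ) ≤ (PP A).card := by exact_mod_cast card_le_card (filter_subset _ _)
  have h5 : 1 / √(M / 4) = 2 / √M := by
    rw [Real.sqrt_div hM0.le, show (4 : ℝ) = 2 ^ 2 by norm_num, Real.sqrt_sq (by norm_num)]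
    have : √M ≠ 0 := (Real.sqrt_pos.mpr hM0).ne'
    field_simp
  rw [h5] at h2
  have h6 : (((PP A).filter (fun H => deg H u = deg H w)).card : ℝ) ≤
      (Q.filter (fun H => deg H u = deg H w)).card +
      ((Om n).filter (fun H => 4 * (disc A u v H).card < A.card.choose 4)).card := by exact_mod_cast h1
  have h7 : 0 ≤ 2 / √M := by positivity
  calc _ ≤ _ := h6
    _ ≤ 2 / √M * Q.card + 4 / M * (Om n).card := add_le_add h2 h3
    _ ≤ 2 / √M * (PP A).card + 4 / M * (Om n).card := by gcongr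

/-- the irregular hypergraphs -/
def Good (n : ℕ) : Finset (Finset (Finset (Fin n))) :=
  (Om n).filter (fun H => ∀ x y, deg H x = deg H y → x = y)

lemma good_lower {A B : Finset (Fin n)} (hAB : ∀ x, x ∈ A ∨ x ∈ B) (hBA : ∀ x ∈ B, x ∉ A) (hB : 3 ≤ B.card)
    (hA : 0 < A.card.choose 4) :
    ((PP A).card : ℝ) - (B.card * n : ℝ) * (2 / √(((A.card.choose 4 : ℕ) : ℝ)) * (PP A).card +
      4 / ((A.card.choose 4 : ℕ) : ℝ) * (Om n).card) ≤ (Good n).card := by
  set β : ℝ := 2 / √(((A.card.choose 4 : ℕ) : ℝ)) * (PP A).card +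
      4 / ((A.card.choose 4 : ℕ) : ℝ) * (Om n).card with hβ
  have hβ0 : 0 ≤ β := by positivity
  have hsub : PP A ⊆ Good n ∪ B.biUnion (fun u => (univ.filter (fun w => w ≠ u)).biUnion
      (fun w => (PP A).filter (fun H => deg H u = deg H w))) := by
    intro H hH
    rw [mem_union]
    by_cases hbad : ∃ u ∈ B, ∃ w, w ≠ u ∧ deg H u = deg H w
    · right
      obtain ⟨u, hu, w, hw, huw⟩ := hbad
      rw [mem_biUnion]
      refine ⟨u, hu, ?_⟩
      rw [mem_biUnion]
      exact ⟨w, mem_filter.mpr ⟨mem_univ _, hw⟩, mem_filter.mpr ⟨hH, huw⟩⟩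
    · left
      push Not at hbad
      unfold PP at hH
      unfold Good
      rw [mem_filter] at hH ⊢
      refine ⟨hH.1, ?_⟩
      intro x y hxy
      by_contra hne
      rcases hAB x with hx | hx
      · rcases hAB y with hy | hy
        · exact hne (hH.2 x hx y hy hxy)
        · exact hbad y hy x hne hxy.symm
      · exact hbad x hx y (Ne.symm hne) hxy
  have h1 : (PP A).card ≤ (Good n).card + ∑ u ∈ B, ∑ w ∈ univ.filter (fun w => w ≠ u),
      ((PP A).filter (fun H => deg H u = deg H w)).card := by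
    refine (card_le_card hsub).trans ((card_union_le _ _).trans (Nat.add_le_add_left ?_ _))
    refine card_biUnion_le.trans (sum_le_sum fun u _ => card_biUnion_le)
  have h2 : ((PP A).card : ℝ) ≤ (Good n).card + ∑ u ∈ B, ∑ w ∈ univ.filter (fun w => w ≠ u),
      (((PP A).filter (fun H => deg H u = deg H w)).card : ℝ) := by exact_mod_cast h1
  have h3 : ∑ u ∈ B, ∑ w ∈ univ.filter (fun w => w ≠ u),
      (((PP A).filter (fun H => deg H u = deg H w)).card : ℝ) ≤ ∑ _u ∈ B, (n : ℝ) * β := by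
    apply sum_le_sum
    intro u hu
    have h4 : ∀ w ∈ univ.filter (fun w => w ≠ u),
        (((PP A).filter (fun H => deg H u = deg H w)).card : ℝ) ≤ β := by
      intro w hw
      apply bad_pair (hBA u hu) (mem_filter.mp hw).2 _ hA
      have h5 : 0 < ((B.erase u).erase w).card := by
        have := pred_card_le_card_erase (s := B.erase u) (a := w)
        have := pred_card_le_card_erase (s := B) (a := u)
        omega
      obtain ⟨v, hv⟩ := card_pos.mp h5
      rw [mem_erase, mem_erase] at hv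
      exact ⟨v, hBA v hv.2.2, hv.2.1, hv.1⟩
    refine (sum_le_sum h4).trans ?_
    rw [sum_const, nsmul_eq_mul]
    apply mul_le_mul_of_nonneg_right _ hβ0
    have := card_le_univ (univ.filter (fun w => w ≠ u))
    rw [Fintype.card_fin] at this
    exact_mod_cast this
  rw [sum_const, nsmul_eq_mul] at h3
  nlinarith

lemma choose_four_lower (j : ℕ) (hj : 3 ≤ j) : ((j : ℝ) - 3) ^ 4 / 24 ≤ ((j.choose 4 : ℕ) : ℝ) := by
  have h1 := Nat.pow_sub_le_descFactorial j 4
  rw [Nat.descFactorial_eq_factorial_mul_choose] at h1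
  have h2 : (((j + 1 - 4 : ℕ) : ℝ)) ^ 4 ≤ 24 * ((j.choose 4 : ℕ) : ℝ) := by
    have : (j + 1 - 4) ^ 4 ≤ 24 * j.choose 4 := by simpa [Nat.factorial] using h1
    exact_mod_cast this
  have h3 : ((j + 1 - 4 : ℕ) : ℝ) = j - 3 := by
    rw [Nat.cast_sub (by omega)]
    push_cast
    ring
  rw [h3] at h2
  linarith

lemma one_sub_ge (x : ℝ) (h0 : 0 ≤ x) (h1 : x ≤ 1 / 2) : Real.exp (-(2 * x)) ≤ 1 - x := by
  have h2 : 1 + x / (1 - x) ≤ Real.exp (x / (1 - x)) := by
    have := Real.add_one_le_exp (x / (1 - x))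
    linarith
  have h3 : 0 < 1 - x := by linarith
  have h4 : x / (1 - x) ≤ 2 * x := by
    rw [div_le_iff₀ h3]
    nlinarith
  have h5 : 1 + x / (1 - x) = (1 - x)⁻¹ := by
    field_simp
    ring
  have h6 : (1 - x)⁻¹ ≤ Real.exp (2 * x) := by
    rw [← h5]
    exact h2.trans (Real.exp_le_exp.mpr h4)
  rw [Real.exp_neg]
  rw [inv_le_comm₀ (Real.exp_pos _) h3]
  exact h6

lemma arith1 (x : ℝ) (hx : 1 ≤ x) : 120 / 100 / x ^ 2 ≤ 2 / x := by
  have h0 : 0 < x := by linarith
  rw [div_le_div_iff₀ (by positivity) h0]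
  nlinarith

lemma arith2 (x c : ℝ) (hx : 0 < x) (hc : 0 < c) (h : 8 / c ≤ x) : 2 / x ≤ c / 4 := by
  rw [div_le_div_iff₀ hx (by norm_num)]
  rw [div_le_iff₀ hc] at h
  linarith

theorem main : ∃ c : ℝ, 0 < c ∧ ∃ N : ℕ, ∀ n : ℕ, N ≤ n → c ≤ ((Good n).card : ℝ) / (2 : ℝ) ^ (n.choose 5) := by
  set c1 : ℝ := Real.exp (-500000) with hc1
  have hc1p : 0 < c1 := Real.exp_pos _
  obtain ⟨N0, hN0⟩ := exists_nat_ge (8 / c1)
  refine ⟨c1 / 4, by positivity, max N0 1000000, ?_⟩
  intro n hn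
  have hnN0 : N0 ≤ n := (le_max_left _ _).trans hn
  have hnbig : 1000000 ≤ n := (le_max_right _ _).trans hn
  have hnR : (1000000 : ℝ) ≤ n := by exact_mod_cast hnbig
  set m := n / 100 with hm
  have hm1 : 100 * m ≤ n := Nat.mul_div_le n 100
  have hm2 : n < 100 * m + 100 := by omega
  have hm1R : 100 * (m : ℝ) ≤ n := by exact_mod_cast hm1
  have hm2R : (n : ℝ) < 100 * m + 100 := by exact_mod_cast hm2
  set B : Finset (Fin n) := univ.filter (fun v => v.val < m) with hB
  set A : Finset (Fin n) := univ.filter (fun v => ¬ v.val < m) with hA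
  have hBc : B.card = m := by
    rw [hB, Fin.card_filter_val_lt]
    omega
  have hAc : A.card = n - m := by
    have := card_filter_add_card_filter_not (s := (univ : Finset (Fin n))) (fun v => v.val < m)
    rw [card_univ, Fintype.card_fin] at this
    rw [← hA, ← hB, hBc] at this
    omega
  have hAR : (A.card : ℝ) = n - m := by
    rw [hAc, Nat.cast_sub (by omega)]
  -- private edges
  have hBch : ((m : ℝ) - 3) ^ 4 / 24 ≤ ((B.card.choose 4 : ℕ) : ℝ) := by
    rw [hBc]; exact choose_four_lower m (by omega)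
  have hm3 : (n : ℝ) / 200 ≤ m - 3 := by linarith
  have hsB : (n : ℝ) ^ 2 / 200000 ≤ √(((B.card.choose 4 : ℕ) : ℝ) + 1) := by
    apply Real.le_sqrt_of_sq_le
    have h1 : ((n : ℝ) / 200) ^ 4 ≤ ((m : ℝ) - 3) ^ 4 := by
      apply pow_le_pow_left₀ (by positivity) hm3
    have h2 : ((n : ℝ) ^ 2 / 200000) ^ 2 ≤ ((n : ℝ) / 200) ^ 4 / 24 := by
      have : 0 ≤ (n : ℝ) ^ 4 := by positivity
      ring_nf
      nlinarith
    linarith
  set q : ℝ := 1 / √(((B.card.choose 4 : ℕ) : ℝ) + 1) with hq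
  have hn0 : (0 : ℝ) < n := by linarith
  have hqle : q ≤ 200000 / (n : ℝ) ^ 2 := by
    rw [hq]
    calc 1 / √(((B.card.choose 4 : ℕ) : ℝ) + 1) ≤ 1 / ((n : ℝ) ^ 2 / 200000) :=
          one_div_le_one_div_of_le (by positivity) hsB
      _ = 200000 / (n : ℝ) ^ 2 := by field_simp
  have hq0 : 0 ≤ q := by rw [hq]; positivity
  have hnq : (n : ℝ) * q ≤ 200000 / n := by
    calc (n : ℝ) * q ≤ n * (200000 / (n : ℝ) ^ 2) := by gcongr
      _ = 200000 / n := by field_simp
  have hnq2 : (n : ℝ) * q ≤ 1 / 2 := by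
    refine hnq.trans ?_
    rw [div_le_iff₀ hn0]
    linarith
  have hPP := PP_lower (B := B) (by linarith) A (by
    intro x hx hxB
    exact (mem_filter.mp hx).2 (mem_filter.mp hxB).2)
  rw [← hq] at hPP
  have hpow : c1 ≤ (1 - (n : ℝ) * q) ^ A.card := by
    have h1 := one_sub_ge ((n : ℝ) * q) (by positivity) hnq2
    have h2 : Real.exp (-(2 * ((n : ℝ) * q))) ^ A.card ≤ (1 - (n : ℝ) * q) ^ A.card :=
      pow_le_pow_left₀ (Real.exp_pos _).le h1 _
    refine le_trans ?_ h2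
    rw [← Real.exp_nat_mul, hc1]
    apply Real.exp_le_exp.mpr
    have h3 : (A.card : ℝ) ≤ n := by rw [hAR]; linarith [(Nat.cast_nonneg m : (0 : ℝ) ≤ m)]
    have h4 : (A.card : ℝ) * (2 * ((n : ℝ) * q)) ≤ n * (2 * (200000 / n)) := by
      gcongr
    have h5 : (n : ℝ) * (2 * (200000 / n)) = 400000 := by field_simp; norm_num
    linarith
  have hOm : ((Om n).card : ℝ) = 2 ^ (n.choose 5) := by rw [card_Om]; push_cast; rfl
  have hPP2 : c1 * (Om n).card ≤ (PP A).card := by
    refine le_trans ?_ hPP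
    gcongr
  -- the other pairs
  have hAch : ((A.card : ℝ) - 3) ^ 4 / 24 ≤ ((A.card.choose 4 : ℕ) : ℝ) :=
    choose_four_lower A.card (by omega)
  have hA3 : (n : ℝ) * (98 / 100) ≤ A.card - 3 := by rw [hAR]; linarith
  have hAch2 : (n : ℝ) ^ 4 / 30 ≤ ((A.card.choose 4 : ℕ) : ℝ) := by
    have h1 : ((n : ℝ) * (98 / 100)) ^ 4 ≤ ((A.card : ℝ) - 3) ^ 4 :=
      pow_le_pow_left₀ (by positivity) hA3 _
    have h2 : (n : ℝ) ^ 4 / 30 ≤ ((n : ℝ) * (98 / 100)) ^ 4 / 24 := by
      have : 0 ≤ (n : ℝ) ^ 4 := by positivity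
      ring_nf
      nlinarith
    linarith
  have hsA : (n : ℝ) ^ 2 / 6 ≤ √(((A.card.choose 4 : ℕ) : ℝ)) := by
    apply Real.le_sqrt_of_sq_le
    have : 0 ≤ (n : ℝ) ^ 4 := by positivity
    nlinarith
  have hAch0 : 0 < ((A.card.choose 4 : ℕ) : ℝ) := lt_of_lt_of_le (by positivity) hAch2
  have hAch0' : 0 < A.card.choose 4 := by exact_mod_cast hAch0
  have hgood := good_lower (A := A) (B := B) (by
    intro x
    by_cases hx : x.val < m
    · right; exact mem_filter.mpr ⟨mem_univ _, hx⟩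
    · left; exact mem_filter.mpr ⟨mem_univ _, hx⟩) (by
    intro x hx hxA
    exact (mem_filter.mp hxA).2 (mem_filter.mp hx).2) (by omega) hAch0'
  rw [hBc] at hgood
  have hP0 : 0 ≤ ((PP A).card : ℝ) := by positivity
  have hO0 : 0 < ((Om n).card : ℝ) := by rw [hOm]; positivity
  have hmn : (m : ℝ) * n ≤ (n : ℝ) ^ 2 / 100 := by nlinarith
  have e1 : (m * n : ℝ) * (2 / √(((A.card.choose 4 : ℕ) : ℝ))) ≤ 1 / 4 := by
    have h1 : 2 / √(((A.card.choose 4 : ℕ) : ℝ)) ≤ 2 / ((n : ℝ) ^ 2 / 6) := by gcongr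
    calc (m * n : ℝ) * (2 / √(((A.card.choose 4 : ℕ) : ℝ))) ≤ ((n : ℝ) ^ 2 / 100) * (2 / ((n : ℝ) ^ 2 / 6)) := by
          gcongr
      _ = 12 / 100 := by field_simp; norm_num
      _ ≤ 1 / 4 := by norm_num
  have e2 : (m * n : ℝ) * (4 / ((A.card.choose 4 : ℕ) : ℝ)) ≤ c1 / 4 := by
    have h1 : 4 / ((A.card.choose 4 : ℕ) : ℝ) ≤ 4 / ((n : ℝ) ^ 4 / 30) := by gcongr
    calc (m * n : ℝ) * (4 / ((A.card.choose 4 : ℕ) : ℝ)) ≤ ((n : ℝ) ^ 2 / 100) * (4 / ((n : ℝ) ^ 4 / 30)) := by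
          gcongr
      _ = 120 / 100 / (n : ℝ) ^ 2 := by field_simp; norm_num
      _ ≤ 2 / n := arith1 n (by linarith)
      _ ≤ c1 / 4 := arith2 n c1 hn0 hc1p (hN0.trans (by exact_mod_cast hnN0))
  have e3 : (m * n : ℝ) * (2 / √(((A.card.choose 4 : ℕ) : ℝ)) * (PP A).card +
      4 / ((A.card.choose 4 : ℕ) : ℝ) * (Om n).card) ≤ 1 / 4 * (PP A).card + c1 / 4 * (Om n).card := by
    calc (m * n : ℝ) * (2 / √(((A.card.choose 4 : ℕ) : ℝ)) * (PP A).card +
          4 / ((A.card.choose 4 : ℕ) : ℝ) * (Om n).card)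
        = (m * n : ℝ) * (2 / √(((A.card.choose 4 : ℕ) : ℝ))) * (PP A).card +
          (m * n : ℝ) * (4 / ((A.card.choose 4 : ℕ) : ℝ)) * (Om n).card := by ring
      _ ≤ _ := add_le_add (mul_le_mul_of_nonneg_right e1 hP0) (mul_le_mul_of_nonneg_right e2 hO0.le)
  rw [le_div_iff₀ (by positivity), ← hOm]
  linarith

end Pool.Agent.V8H20.Irr
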