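import Mathlib

/-!
# Exponential IP sets of type I: three cells are too many

The natural numbers can be partitioned into three cells none of which is an exponential IP set of
type I; in fact no cell contains numbers `x, y, x ^ y` with `1 < x < y`. The same is true with `r`
cells, for every `r ≥ 3`.

Colour `n` by the number of steps of the tower `2, 4, 16, 65536, ...` below it, modulo `3`. If
`2 ≤ x < y` then `x ^ y` lies one or two steps above `y`.
-/

set_option autoImplicit false

namespace Pool.Agent.V8H20.TypeOneThreeCells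

/-- `FE^I_n(X)` for the infinite set `X = {x 0 < x 1 < x 2 < ...}`. -/
def FEI (x : ℕ → ℕ) : ℕ → Set ℕ
  | 0 => {x 0}
  | n + 1 => {z | ∃ y ∈ FEI x n, z = y ^ x (n + 1)} ∪ FEI x n ∪ {x (n + 1)}

/-- `C` is an exponential IP set of type I: it contains `FE^I(X)` for some infinite set `X` of
natural numbers (given by its increasing enumeration). -/
def IsExpIPI (C : Set ℕ) : Prop :=
  ∃ x : ℕ → ℕ, StrictMono x ∧ ∀ n, FEI x n ⊆ C

/-- the tower `2, 4, 16, 65536, ...` -/
def tow : ℕ → ℕ
  | 0 => 2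
  | k + 1 => 2 ^ tow k

lemma tow_lt (k : ℕ) : tow k < tow (k + 1) := by
  show tow k < 2 ^ tow k
  exact Nat.lt_two_pow_self

lemma tow_mono : StrictMono tow := strictMono_nat_of_lt_succ tow_lt

/-- the number of elements of the tower which are at most `n`, minus one -/
def lev (n : ℕ) : ℕ := Nat.findGreatest (fun k => tow k ≤ n) n

lemma lev_spec {n : ℕ} (hn : 2 ≤ n) : tow (lev n) ≤ n := by
  have := Nat.findGreatest_spec (P := fun k => tow k ≤ n) (Nat.zero_le n) (by exact hn)
  exact this

lemma lt_tow_lev {n : ℕ} : n < tow (lev n + 1) := by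
  by_contra h
  push Not at h
  have h1 : lev n + 1 ≤ n := (tow_mono.le_apply (x := lev n + 1)).trans h
  have h2 := Nat.le_findGreatest (P := fun k => tow k ≤ n) h1 h
  have h3 : lev n + 1 ≤ lev n := h2
  omega

lemma lev_eq {n k : ℕ} (h1 : tow k ≤ n) (h2 : n < tow (k + 1)) : lev n = k := by
  have hn : 2 ≤ n := by
    have : tow 0 ≤ tow k := tow_mono.monotone (Nat.zero_le k)
    exact le_trans this h1
  have h3 := lev_spec hn
  have h4 := lt_tow_lev (n := n)
  have h5 : k < lev n + 1 := tow_mono.lt_iff_lt.mp (lt_of_le_of_lt h1 h4)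
  have h6 : lev n < k + 1 := tow_mono.lt_iff_lt.mp (lt_of_le_of_lt h3 h2)
  omega

lemma two_le_tow (k : ℕ) : 2 ≤ tow k := tow_mono.monotone (Nat.zero_le k)

lemma sq_le_two_pow : ∀ a : ℕ, 4 ≤ a → a * a ≤ 2 ^ a := by
  intro a ha
  induction a, ha using Nat.le_induction with
  | base => norm_num
  | succ n hn ih =>
    rw [pow_succ]
    nlinarith

/-- if `2 ≤ x < y`, then `x ^ y` lies one or two levels above `y` -/
lemma lev_pow {x y : ℕ} (hx : 2 ≤ x) (hxy : x < y) :
    lev (x ^ y) = lev y + 1 ∨ lev (x ^ y) = lev y + 2 := by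
  have hy : 2 ≤ y := by omega
  set k := lev y with hk
  have h1 : tow k ≤ y := lev_spec hy
  have h2 : y < tow (k + 1) := lt_tow_lev
  have h3 : tow (k + 1) ≤ x ^ y := by
    show 2 ^ tow k ≤ x ^ y
    exact (Nat.pow_le_pow_right (by norm_num) h1).trans (Nat.pow_le_pow_left hx y)
  have h4 : x ^ y < tow (k + 3) := by
    have e1 : x < 2 ^ tow k := by
      have : x < tow (k + 1) := by omega
      exact this
    have e2 : x ^ y < 2 ^ (tow k * tow (k + 1)) := by
      calc x ^ y < (2 ^ tow k) ^ y := Nat.pow_lt_pow_left e1 (by omega)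
        _ = 2 ^ (tow k * y) := by rw [← pow_mul]
        _ ≤ 2 ^ (tow k * tow (k + 1)) := Nat.pow_le_pow_right (by norm_num) (Nat.mul_le_mul_left _ h2.le)
    have e3 : tow k * tow (k + 1) ≤ tow (k + 2) := by
      have h5 : 4 ≤ tow (k + 1) := by
        have : tow 1 ≤ tow (k + 1) := tow_mono.monotone (by omega)
        exact this
      calc tow k * tow (k + 1) ≤ tow (k + 1) * tow (k + 1) := Nat.mul_le_mul_right _ (tow_lt k).le
        _ ≤ 2 ^ tow (k + 1) := sq_le_two_pow _ h5
        _ = tow (k + 2) := rfl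
    calc x ^ y < 2 ^ (tow k * tow (k + 1)) := e2
      _ ≤ 2 ^ tow (k + 2) := Nat.pow_le_pow_right (by norm_num) e3
      _ = tow (k + 3) := rfl
  rcases lt_or_ge (x ^ y) (tow (k + 2)) with h5 | h5
  · left
    exact lev_eq h3 h5
  · right
    exact lev_eq h5 h4

lemma mem_FEI_self (x : ℕ → ℕ) (n : ℕ) : x n ∈ FEI x n := by
  cases n with
  | zero => exact Set.mem_singleton _
  | succ n => exact Or.inr (Set.mem_singleton _)

/-- a cell without `x, y, x ^ y`, `2 ≤ x < y`, is not an exponential IP set of type I -/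
lemma not_expIPI {C : Set ℕ} (h : ∀ x y : ℕ, 2 ≤ x → x < y → x ∈ C → y ∈ C → x ^ y ∈ C → False) :
    ¬ IsExpIPI C := by
  rintro ⟨x, hx, hC⟩
  have h1 : 2 ≤ x 2 := hx.le_apply (x := 2)
  have h2 : x 2 < x 3 := hx (by norm_num)
  apply h (x 2) (x 3) h1 h2 (hC 2 (mem_FEI_self x 2)) (hC 3 (mem_FEI_self x 3))
  apply hC 3
  exact Or.inl (Or.inl ⟨x 2, mem_FEI_self x 2, rfl⟩)

/-- For every `r ≥ 3` there is a partition of the natural numbers into `r` nonempty cells (the
fibres of a surjective map `c`) such that no cell contains `x, y, x ^ y` with `2 ≤ x < y`; so no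
cell is an exponential IP set of type I. -/
theorem result : ∀ r : ℕ, 3 ≤ r → ∃ c : ℕ → Fin r, Function.Surjective c ∧
    (∀ x y : ℕ, 2 ≤ x → x < y → ¬ (c x = c y ∧ c (x ^ y) = c y)) ∧
    ∀ i : Fin r, ¬ IsExpIPI {n | c n = i} := by
  intro r hr
  have hr0 : 0 < r := by omega
  refine ⟨fun n => ⟨lev n % r, Nat.mod_lt _ hr0⟩, ?_, ?_, ?_⟩
  · intro i
    refine ⟨tow i, ?_⟩
    apply Fin.ext
    show lev (tow i) % r = i
    rw [lev_eq le_rfl (tow_lt i)]
    exact Nat.mod_eq_of_lt i.2
  · intro x y hx hxy h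
    have h2 := congrArg Fin.val h.2
    simp only at h2
    rcases lev_pow hx hxy with h3 | h3
    · rw [h3] at h2
      have h4 : (lev y + 1) ≡ lev y [MOD r] := h2
      have h5 := (Nat.modEq_iff_dvd.mp h4.symm)
      have h6 : ((r : ℕ) : ℤ) ∣ 1 := by
        have e : ((lev y + 1 : ℕ) : ℤ) - (lev y : ℕ) = 1 := by push_cast; ring
        rwa [e] at h5
      have h7 := Int.le_of_dvd (by norm_num) h6
      omega
    · rw [h3] at h2
      have h4 : (lev y + 2) ≡ lev y [MOD r] := h2
      have h5 := (Nat.modEq_iff_dvd.mp h4.symm)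
      have h6 : ((r : ℕ) : ℤ) ∣ 2 := by
        have e : ((lev y + 2 : ℕ) : ℤ) - (lev y : ℕ) = 2 := by push_cast; ring
        rwa [e] at h5
      have h7 := Int.le_of_dvd (by norm_num) h6
      omega
  · intro i
    apply not_expIPI
    intro x y hx hxy h1 h2 h3
    have h1' := congrArg Fin.val (h1 : _ = i)
    have h2' := congrArg Fin.val (h2 : _ = i)
    have h3' := congrArg Fin.val (h3 : _ = i)
    simp only at h1' h2' h3'
    rcases lev_pow hx hxy with h4 | h4
    · rw [h4] at h3'
      have h5 : (lev y + 1) ≡ lev y [MOD r] := by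
        show (lev y + 1) % r = lev y % r
        rw [h3', h2']
      have h6 := (Nat.modEq_iff_dvd.mp h5.symm)
      have e : ((lev y + 1 : ℕ) : ℤ) - (lev y : ℕ) = 1 := by push_cast; ring
      rw [e] at h6
      have h7 := Int.le_of_dvd (by norm_num) h6
      omega
    · rw [h4] at h3'
      have h5 : (lev y + 2) ≡ lev y [MOD r] := by
        show (lev y + 2) % r = lev y % r
        rw [h3', h2']
      have h6 := (Nat.modEq_iff_dvd.mp h5.symm)
      have e : ((lev y + 2 : ℕ) : ℤ) - (lev y : ℕ) = 2 := by push_cast; ring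
      rw [e] at h6
      have h7 := Int.le_of_dvd (by norm_num) h6
      omega

end Pool.Agent.V8H20.TypeOneThreeCells
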